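import Pool.Agent.Q108.FF.Cover
import Pool.Agent.Helper998.Near.InsideDom

set_option autoImplicit false

open Finset

namespace Pool.Agent.Results.MP_ff63d6_co.EveryCircuit

open Pool.Agent.Helper347.Sab

/-!
Strong circuit double covers of cubic graphs of circumference at least n - 1, for every circuit.

Let A be a circuit missing at most one vertex and C any circuit. If the vertices of C lie on A, the
cover is given by MP_ff63d6_co.InsideDominating. Otherwise the vertex missed by A lies on C, the
graph A ∪ C is connected and spanning, and G/E(C) has a nowhere-zero 4-flow. The main new step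
(Pool.Agent.Q108.FF) is that every circuit C such that G/E(C) has a nowhere-zero 4-flow belongs to
a circuit double cover: the parts of the flow on the components of G - E(C) are multiplied by
nonzero elements of the field with four elements, and the number of good choices of these factors
is odd.
-/

variable {V E : Type} [Fintype V] [DecidableEq V] [Fintype E] [DecidableEq E]

/-- The circumference of G is at least (number of vertices) - 1: some circuit has at least that
many edges. -/
def NearHamiltonian (G : MGraph V E) : Prop :=
  ∃ A : Finset E, IsCircuit G A ∧ Fintype.card V ≤ A.card + 1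

/-- Every circuit C of a cubic multigraph G of order n with circumference at least n - 1 belongs to
a circuit double cover of G. -/
theorem result {V E : Type} [Fintype V] [DecidableEq V] [Fintype E] [DecidableEq E]
    (G : MGraph V E) (hG : IsCubic G) (hn : NearHamiltonian G)
    (C : Finset E) (hC : IsCircuit G C) :
    ∃ F : Multiset (Finset E), IsCDC G F ∧ C ∈ F := by
  obtain ⟨A, hA, hlen⟩ := id hn
  have hone := Pool.Agent.Helper998.Near.one_off G A hA hlen
  by_cases hv : ∀ v, dg G A v = 0 → dg G C v = 2
  · obtain ⟨B, hB1, hB2⟩ := Pool.Agent.Helper998.Near.trail_flow G C A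
      (Pool.Agent.Helper998.Near.ev_circuit G A hA)
      (Pool.Agent.Helper998.Near.union_connected G C A hA hone hv)
    obtain ⟨A', B', D, hA', hB', hD, hcov, hDC⟩ := Pool.Agent.Q108.FF.many G hG C hC.2.1
      (Pool.Agent.Q108.FF.localFlows_of_circuit G C A B hC
        (Pool.Agent.Helper998.Near.ev_circuit G A hA) hB1 hB2)
    obtain ⟨F, hF, hCF⟩ := Pool.Agent.Helper998.Near.core G hG C A' B' D hC.2.1 hA' hB' hD
      hcov hDC
    refine ⟨F.val, ⟨fun X hX => hF.1 X hX, fun e => ?_⟩, hCF C hC (Subset.refl _)⟩
    rw [Multiset.countP_eq_card_filter]
    exact hF.2 e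
  · push Not at hv
    obtain ⟨x, hx, hCx⟩ := hv
    refine MP_ff63d6_co.InsideDominating.result G hG hn C hC ⟨A, hA, ?_, Or.inr (by omega)⟩
    intro v hv2
    rcases hA.2.1 v with h0 | h0
    · have := hone x v hx h0
      subst this
      exact absurd hv2 hCx
    · exact h0

end Pool.Agent.Results.MP_ff63d6_co.EveryCircuit
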